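import Pool.Agent.N162.HN.Stm2

/-!
Project HO (helper162): change of coordinates in the residue relations (RELM, helper966).
-/

set_option autoImplicit false

open FF Pool.Agent.W603.LV Pool.Agent.Y184.NT Pool.Agent.N162.BC IntermediateField MvPolynomial
open Pool.Agent.N162.HN

namespace Pool.Agent.N966.HO

section

variable {n : ℕ} {K Ω : Type} [Field K] [Algebra ℂ K] [Field Ω] [Algebra ℂ Ω]

theorem exists_sub [CharZero Ω] (M : Matrix (Fin (n + 2)) (Fin (n + 2)) ℚ) {d : ℕ}
    {P : MvPolynomial (Fin (n + 2)) Ω} (hP : P.IsHomogeneous d) :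
    ∃ P' : MvPolynomial (Fin (n + 2)) Ω, P'.IsHomogeneous d ∧
      ∀ q : Fin (n + 2) → Ω, eval q P' = eval (act M q) P := by
  refine ⟨aeval (fun i => ∑ j, C (M i j : Ω) * X j) P, ?_, fun q => ?_⟩
  · have h1 := hP.aeval (n := 1) (fun i => ∑ j, C (M i j : Ω) * X j) fun i =>
      IsHomogeneous.sum _ _ _ fun j _ => isHomogeneous_C_mul_X _ _
    rwa [one_mul] at h1
  · change aeval q _ = aeval (act M q) P
    rw [comp_aeval_apply]
    congr 2
    funext i
    rw [map_sum]
    refine Finset.sum_congr rfl fun j _ => ?_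
    rw [map_mul, aeval_C, aeval_X]
    rfl

theorem aeval_pderiv_sub [CharZero K] (M' : Matrix (Fin (n + 2)) (Fin (n + 2)) ℚ)
    (F : MvPolynomial (Fin (n + 2)) ℂ) (z : Fin (n + 2) → K) (l : Fin (n + 2)) :
    aeval z (pderiv l (sub M' F)) = ∑ i, aeval (act M' z) (pderiv i F) * (M' i l : K) := by
  have h5 := congrArg (aeval z) (der_aeval (pderiv l) (fun i => ∑ j, C (M' i j : ℂ) * X j) F)
  unfold sub
  rw [h5, map_sum]
  refine Finset.sum_congr rfl fun i _ => ?_
  rw [map_mul, ← aeval_sub]
  congr 1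
  rw [map_sum, map_sum, Finset.sum_eq_single l]
  · rw [pderiv_C_mul, pderiv_X_self, mul_one, aeval_C, map_ratCast]
  · intro j _ hj
    rw [pderiv_C_mul, pderiv_X_of_ne hj, mul_zero, map_zero]
  · intro h
    exact absurd (Finset.mem_univ _) h

theorem der_rat (D : Derivation ℂ Ω Ω) (q : ℚ) (y : Ω) : D ((q : Ω) * y) = (q : Ω) * D y := by
  have e : ((q : ℚ) : Ω) = algebraMap ℂ Ω (q : ℂ) := (map_ratCast _ _).symm
  rw [e, ← Algebra.smul_def, ← Algebra.smul_def, D.map_smul]

theorem rows_act (M : Matrix (Fin (n + 2)) (Fin (n + 2)) ℚ) (v w : Fin (n + 2) → Ω)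
    (D : Fin n → Derivation ℂ Ω Ω) :
    rows (act M v) (act M w) D = rows v w D * (M.map (fun q : ℚ => (q : Ω))).transpose := by
  ext i j
  rw [Matrix.mul_apply]
  refine Fin.cases ?_ (fun i => ?_) i
  · change act M v j = ∑ l, v l * (M j l : Ω)
    unfold act
    exact Finset.sum_congr rfl fun l _ => mul_comm _ _
  refine Fin.cases ?_ (fun i => ?_) i
  · change act M w j = ∑ l, w l * (M j l : Ω)
    unfold act
    exact Finset.sum_congr rfl fun l _ => mul_comm _ _
  · change D i (act M w j) = ∑ l, D i (w l) * (M j l : Ω)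
    unfold act
    rw [map_sum]
    refine Finset.sum_congr rfl fun l _ => ?_
    rw [der_rat, mul_comm]

end

theorem relm_ : StRELM := by
  intro n K Ω _ _ _ _ F x m M M' h1 h2 f hf c' hc' D P hP
  have hcΩ : CharZero Ω := charZero_of_injective_algebraMap (algebraMap ℂ Ω).injective
  have hcK : CharZero K := charZero_of_injective_algebraMap (algebraMap ℂ K).injective
  obtain ⟨P', hP', hPe⟩ := exists_sub M hP
  have hc : ∑ l, aeval x (pderiv l F) * act M' c' l = 1 := by
    rw [← hc']
    simp only [aeval_pderiv_sub, act_act h2]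
    simp only [Finset.sum_mul]
    rw [Finset.sum_comm]
    refine Finset.sum_congr rfl fun i _ => ?_
    unfold act
    rw [Finset.mul_sum]
    exact Finset.sum_congr rfl fun l _ => by ring
  have h := hf (act M' c') hc D P' hP'
  have hcc : c' = act M (act M' c') := (act_act h1 c').symm
  have e : ∀ σ : K →ₐ[ℂ] Ω, (rows (fun j => σ (c' j)) (pt (act M x) σ) D).det *
      eval (pt (act M x) σ) P =
      (M.map (fun q : ℚ => (q : Ω))).transpose.det *
        ((rows (fun j => σ (act M' c' j)) (pt x σ) D).det * eval (pt x σ) P') := by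
    intro σ
    have e1 : (fun j => σ (c' j)) = act M (fun j => σ (act M' c' j)) := by
      conv_lhs => rw [hcc]
      exact pt_act M (act M' c') σ
    rw [e1, pt_act, rows_act, Matrix.det_mul, hPe]
    ring
  calc ∑ σ ∈ f.support, f σ * ((rows (fun j => σ (c' j)) (pt (act M x) σ) D).det *
        eval (pt (act M x) σ) P)
      = (M.map (fun q : ℚ => (q : Ω))).transpose.det * ∑ σ ∈ f.support, f σ *
        ((rows (fun j => σ (act M' c' j)) (pt x σ) D).det * eval (pt x σ) P') := by
        rw [Finset.mul_sum]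
        refine Finset.sum_congr rfl fun σ _ => ?_
        rw [e]
        ring
    _ = 0 := by rw [h, mul_zero]

end Pool.Agent.N966.HO

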